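import Pool.Agent.R325.AGMain
import Pool.Agent.R325.AGEx

namespace Pool.Agent.Results.MP_04502c_nt.LmaxTendsToZero

open Pool.Agent.R325.AG Filter Topology

/-- Full (positive) answer to Q1: `L_max(r) → 0` as `r → ∞` for the almost Golomb sequences (which
exist for every order `r ≥ 2`).  The convergence is uniform over all nondecreasing sequences of
positive integers satisfying the nested recurrence of order `r`, whether or not their terms are
chosen as small as possible. -/
theorem result :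
    (∀ r, 2 ≤ r → ∃ a, IsAlmostGolomb r a) ∧
    (∀ a : ℕ → ℕ → ℕ, (∀ r, 2 ≤ r → IsAlmostGolomb r (a r)) →
      Tendsto (fun r => Lmax (a r)) atTop (𝓝 0)) ∧
    (∀ ε : ℝ, 0 < ε → ∃ R : ℕ, ∀ r, R ≤ r → ∀ a, IsSol r a → 0 ≤ Lmax a ∧ Lmax a ≤ ε) := by
  refine ⟨fun r hr => ⟨ag r, exists_ag r hr⟩, ?_, ?_⟩
  · intro a ha
    rw [Metric.tendsto_atTop]
    intro ε hε
    obtain ⟨R, hR⟩ := main_eps (ε / 2) (by positivity)
    refine ⟨max R 2, fun r hr => ?_⟩
    have h2 := (ha r ((le_max_right _ _).trans hr)).toIsSol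
    have h3 := hR r ((le_max_left _ _).trans hr) (a r) h2
    have h4 := Lmax_nonneg h2
    rw [Real.dist_eq, sub_zero, abs_of_nonneg h4]
    linarith
  · intro ε hε
    obtain ⟨R, hR⟩ := main_eps ε hε
    exact ⟨R, fun r hr a ha => ⟨Lmax_nonneg ha, hR r hr a ha⟩⟩

end Pool.Agent.Results.MP_04502c_nt.LmaxTendsToZero
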